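import Pool.Agent.U554.TW.Abs

/-!
# The universality of the systems of bilinear equations, degree by degree
-/

set_option autoImplicit false

open CategoryTheory AlgebraicGeometry MvPolynomial Pool.Agent.Y116.UV Pool.Agent.U554.TU

namespace Pool.Agent.U554.TW

universe u

variable {R : Type} [CommRing R]

/-- The closed subscheme `∂T/∂x_i (y, z) = 0`, `1 ≤ i ≤ a₁`, of the affine space with the coordinates
`y`, `z`, where `T(x, y, z) = ∑ T i j l x_i y_j z_l`. -/
noncomputable def bilS {a₁ a₂ a₃ : ℕ} (T : Fin a₁ → Fin a₂ → Fin a₃ → R) : Sch R :=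
  aff R (MvPolynomial (Fin a₂ ⊕ Fin a₃) R ⧸
    Ideal.span (Set.range fun i => bil (Fin a₂) (Fin a₃) (T i)))

/-- Renaming the variables. -/
noncomputable def bilIso {β γ : Type} [Fintype β] [Fintype γ] {a₁ a₂ a₃ : ℕ}
    (e₂ : Fin a₂ ≃ β) (e₃ : Fin a₃ ≃ γ) (T : Fin a₁ → β → γ → R) :
    (MvPolynomial (Fin a₂ ⊕ Fin a₃) R ⧸
      Ideal.span (Set.range fun i => bil (Fin a₂) (Fin a₃) fun j l => T i (e₂ j) (e₃ l))) ≃ₐ[R]
    (MvPolynomial (β ⊕ γ) R ⧸ Ideal.span (Set.range fun i => bil β γ (T i))) :=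
  Ideal.quotientEquivAlg _ _ (renameEquiv R (Equiv.sumCongr e₂ e₃)) (by
    rw [Ideal.map_span, ← Set.range_comp]
    have h : (fun i => bil β γ (T i)) = ((renameEquiv R (Equiv.sumCongr e₂ e₃) :
        MvPolynomial (Fin a₂ ⊕ Fin a₃) R →+* MvPolynomial (β ⊕ γ) R)) ∘
          (fun i => bil (Fin a₂) (Fin a₃) fun j l => T i (e₂ j) (e₃ l)) := by
      funext i
      simp only [Function.comp_apply, RingHom.coe_coe, bil_apply, map_sum, map_mul,
        renameEquiv_apply, rename_C, rename_X, Equiv.sumCongr_apply, Sum.map_inl, Sum.map_inr]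
      rw [← e₂.sum_comp]
      apply Finset.sum_congr rfl
      intro j _
      rw [← e₃.sum_comp]
    rw [h])

variable {V : Type u} {C : Rel V} {O : ℤ → ℤ → Sch R → V}

/-- **Universality of the systems of bilinear equations, degree by degree.** -/
theorem IsTheory.universal_bil (hO : IsTheory C O) {S : Set R} (h0 : 0 ∈ S) (h1 : 1 ∈ S)
    (hS : Presents S) (s : ℕ) (A : Type) [CommRing A] [Algebra R A] [Algebra.FiniteType R A]
    (b m : ℤ) :
    ∃ (a₁ a₂ a₃ : ℕ) (T : Fin a₁ → Fin a₂ → Fin a₃ → R), (∀ i j k, T i j k ∈ S) ∧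
      b + 2 + s < a₂ + a₃ ∧ C.Factor (O b m (aff R A)) (O (b + 2) m (bilS T)) := by
  classical
  obtain ⟨N, hN⟩ := hO.large (b + 2) m
  obtain ⟨n, hn, φ, G, hs, hK, hc⟩ := presents_large hS h0 h1 A (N + (b + 2).toNat + s + 1)
  let D : ℕ := 1 + ∑ g ∈ G, ∑ m ∈ g.support, m.degree
  have hD : 1 ≤ D := by omega
  have hd : ∀ g ∈ G, ∀ m ∈ g.support, m.degree ≤ D := by
    intro g hg m hm
    have h1 : m.degree ≤ ∑ m ∈ g.support, m.degree :=
      Finset.single_le_sum (f := fun m : Fin n →₀ ℕ => m.degree) (fun _ _ => Nat.zero_le _) hm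
    have h2 : ∑ m ∈ g.support, m.degree ≤ ∑ g ∈ G, ∑ m ∈ g.support, m.degree :=
      Finset.single_le_sum (f := fun g : MvPolynomial (Fin n) R => ∑ m ∈ g.support, m.degree)
        (fun _ _ => Nat.zero_le _) hg
    omega
  have hG : ∀ g ∈ G, φ g = 0 := by
    intro g hg
    have : g ∈ RingHom.ker φ := by
      rw [hK]
      exact Ideal.subset_span hg
    exact this
  have hM : n ≤ Fintype.card (Mon n D) := by
    simpa using Fintype.card_le_of_injective _ (md_inj (n := n) hD)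
  -- the tori
  have hL := ft_laurent (R := R) A
  have hLL := ft_laurent (R := R) (LaurentPolynomial A)
  have hLC : Algebra.FiniteType R (LCone hD G) :=
    Algebra.FiniteType.trans (S := Cone hD G) inferInstance inferInstance
  have k1 := C.factor_trans (hO.torus A b m) (hO.torus (LaurentPolynomial A) (b + 1) m)
  have hb2 : b + 1 + 1 = b + 2 := by ring
  rw [hb2] at k1
  have k2 : C.Factor (O b m (aff R A)) (O (b + 2) m (aff R (LCone hD G))) :=
    C.factor_trans k1
      (C.iso_factor (C.iso_symm (hO.alg (coneEquiv hD G φ hG hd hs hK) (b + 2) m)))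
  -- the boundary
  have hbd : ∀ m' : ℤ, m - 1 ≤ m' → m' ≤ m + 1 →
      C.Triv (O (b + 2) m' (aff R (Cone hD G ⧸ Ideal.span {cw hD G}))) := by
    intro m' hm1 hm2
    exact hO.bd_triv hD G (b + 2) m' fun r hr B _ _ _ => hN r (by omega) m' hm1 hm2 B
  have k3 : C.Iso (O (b + 2) m (aff R (Cone hD G))) (O (b + 2) m (aff R (LCone hD G))) := by
    have h := hO.opened _ _ (ft_aff True) (triple_away (cw hD G)) (b + 2) (m - 1)
      (hbd _ (by omega) (by omega)) (hbd _ (by omega) (by omega))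
    rwa [sub_add_cancel] at h
  -- the equations
  let κ : Type := Mon n D ⊕ (Mon n D × Fin n) ⊕ G
  let e : Fin (Fintype.card κ) ≃ κ := (Fintype.equivFin κ).symm
  let eM : Fin (Fintype.card (Mon n D)) ≃ Mon n D := (Fintype.equivFin (Mon n D)).symm
  choose T0 hT0S hT0 using fun k : κ => eqs_mem hD G h0 h1 hc k
  let f : Fin (Fintype.card κ) → UVRing R n D := fun i => bil (Mon n D) (Mon n D) (T0 (e i))
  have hf : Ideal.span (Set.range f) = eqI hD G := by
    have : f = eqs hD G ∘ e := by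
      funext i
      exact hT0 (e i)
    rw [this, e.surjective.range_comp, eqI]
  have k5 : C.Iso (O (b + 2) m (aff R (Cone hD G)))
      (O (b + 2) m (aff R (UVRing R n D ⧸ Ideal.span (Set.range f)))) :=
    hO.alg (Ideal.quotientEquivAlgOfEq R hf.symm) _ _
  have k6 := hO.alg (bilIso eM eM fun i => T0 (e i)).symm (b + 2) m
  refine ⟨Fintype.card κ, Fintype.card (Mon n D), Fintype.card (Mon n D),
    fun i j k => T0 (e i) (eM j) (eM k), fun _ _ _ => hT0S _ _ _, by omega, ?_⟩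
  exact C.factor_trans k2 (C.factor_trans (C.iso_factor (C.iso_symm k3))
    (C.factor_trans (C.iso_factor k5) (C.iso_factor k6)))

/-- From the systems of bilinear equations to the affine schemes; `s` is any lower bound for the
codimensions. -/
theorem affine_of_bil (hO : IsTheory C O) {P : V → Prop} (hP : Inherited C P) {S : Set R}
    (h0 : 0 ∈ S) (h1 : 1 ∈ S) (hS : Presents S) (s : ℕ) (m : ℤ)
    (h : ∀ (a₁ a₂ a₃ : ℕ) (T : Fin a₁ → Fin a₂ → Fin a₃ → R), (∀ i j k, T i j k ∈ S) →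
      ∀ j : ℕ, s ≤ j → P (O (a₂ + a₃ - j) m (bilS T)))
    (A : Type) [CommRing A] [Algebra R A] [Algebra.FiniteType R A] (b : ℤ) :
    P (O b m (aff R A)) := by
  obtain ⟨a₁, a₂, a₃, T, hT, hb, hF⟩ := hO.universal_bil h0 h1 hS s A b m
  have h2 := h a₁ a₂ a₃ T hT ((a₂ + a₃ : ℤ) - (b + 2)).toNat (by omega)
  have h3 : (a₂ + a₃ - (((a₂ + a₃ : ℤ) - (b + 2)).toNat : ℤ) : ℤ) = b + 2 := by omega
  rw [h3] at h2
  exact hP _ _ hF h2

end Pool.Agent.U554.TW
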