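import Pool.Agent.U554.TW.Bil

/-!
# Smooth proper schemes, all schemes, bilinear equations, and the hypersurfaces `T(x, y, z) = 1`
-/

set_option autoImplicit false

open CategoryTheory AlgebraicGeometry MvPolynomial Pool.Agent.Y116.UV Pool.Agent.U554.TU

namespace Pool.Agent.U554.TW

universe u

/-- The rational numbers: coefficients `0` and `1` are sufficient. -/
lemma presents_rat {k : Type} [Field k] (h : Nonempty (ℚ ≃+* k)) : Presents ({0, 1} : Set k) := by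
  obtain ⟨e⟩ := h
  refine Pool.Agent.Q193.LT.presents_frac fun x => ⟨(e.symm x).den, (e.symm x).num, ?_, ?_⟩
  · exact IsUnit.mk0 _ (by
      have h1 : (((e.symm x).den : ℤ) : ℚ) ≠ 0 := by exact_mod_cast (e.symm x).den_ne_zero
      have h2 := (map_ne_zero e).mpr h1
      rwa [map_intCast] at h2)
  · have h1 : (((e.symm x).num : ℤ) : ℚ) = ((e.symm x).den : ℤ) * e.symm x := by
      push_cast
      rw [mul_comm]
      exact (Rat.mul_den_eq_num (e.symm x)).symm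
    have h2 := congrArg e h1
    rwa [map_mul, e.apply_symm_apply, map_intCast, map_intCast] at h2

/-- A prime field: coefficients `0` and `1` are sufficient. -/
lemma presents_prime {k : Type} [Field k]
    (h : ∀ x : k, ∃ d n : ℤ, (d : k) ≠ 0 ∧ (n : k) = d * x) : Presents ({0, 1} : Set k) :=
  Pool.Agent.Q193.LT.presents_frac fun x => by
    obtain ⟨d, n, hd, hn⟩ := h x
    exact ⟨d, n, hd.isUnit, hn⟩

section

variable {k : Type} [Field k] {V : Type u} {C : Rel V} {O : ℤ → ℤ → Sch k → V}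

/-- The bilinear equations and the hypersurface. -/
lemma bil_hyp (hO : IsTheory C O) {a₁ a₂ a₃ : ℕ} (T : Fin a₁ → Fin a₂ → Fin a₃ → k) (j : ℕ) (m : ℤ)
    (h : C.Triv (O (-j) m (aff k k))) (h' : C.Triv (O (-j) (m + 1) (aff k k))) :
    C.Iso (O (a₁ + a₂ + a₃ - 1 - j) (m + 1) (hypS T)) (O (a₂ + a₃ - j) m (bilS T)) := by
  let f : Fin a₁ → MvPolynomial (Fin a₂ ⊕ Fin a₃) k := fun i => bil (Fin a₂) (Fin a₃) (T i)
  have e : MvPolynomial (Fin a₂ ⊕ Fin a₃) k ≃ₐ[k] MvPolynomial (Fin (a₂ + a₃)) k :=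
    renameEquiv k finSumFinEquiv
  have h1 : ∀ m' : ℤ, C.Triv (O (-j) m' (aff k k)) →
      C.Triv (O (a₂ + a₃ - j) m' (aff k (MvPolynomial (Fin a₂ ⊕ Fin a₃) k))) := by
    intro m' hm
    refine C.iso_triv (C.iso_symm (hO.alg e _ m')) ?_
    have u := hO.space k (a₂ + a₃) (-j) m'
    rw [show (-j + ((a₂ + a₃ : ℕ) : ℤ) : ℤ) = a₂ + a₃ - j from by push_cast; ring] at u
    exact C.iso_triv u hm
  have h2 := hO.closed _ _ (ft_aff True) (triple_ne f) _ _ (h1 m h) (h1 (m + 1) h')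
  have h3 := C.iso_symm (hO.hyp_bundle T (a₂ + a₃ - j) (m + 1))
  rw [show (a₂ + a₃ - j + a₁ - 1 : ℤ) = a₁ + a₂ + a₃ - 1 - j from by ring] at h3
  exact C.iso_trans h3 h2

variable {P : V → Prop}

/-- From the hypersurfaces with coefficients in `D` to the smooth schemes. -/
theorem smooth_of_hyp (hO : IsTheory C O) (hB : BundleInvariant C O)
    (hJ : ∀ X : Sch k, FT True X → Smooth X.hom → HasAffineBundle X) (hP : Inherited C P) (m : ℤ)
    (s : ℕ) {D : Set k} (hD0 : 0 ∈ D) (hD1 : 1 ∈ D) (hD : Presents D)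
    (h : ∀ (a₁ a₂ a₃ : ℕ) (T : Fin a₁ → Fin a₂ → Fin a₃ → k), (∀ i j l, T i j l ∈ D) →
        ∀ j : ℕ, s ≤ j → P (O (a₁ + a₂ + a₃ - 1 - j) (m + 1) (hypS T)))
    (X : Sch k) (b : ℤ) (hX : FT True X) (hs : Smooth X.hom) : P (O b m X) := by
  refine bundle_of_affine hB hP m ?_ X hX (hJ X hX hs) b
  intro A _ _ _ b
  exact affine_of_hyp hO hP hD0 hD1 hD s m (fun a₁ a₂ a₃ T hT' j hj => h a₁ a₂ a₃ T hT' j hj) A b

/-- The equivalence of four assertions, and of three assertions in the case that coefficients `0` and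
`1` are sufficient. -/
theorem main (hO : IsTheory C O) (hB : BundleInvariant C O)
    (hJ : ∀ X : Sch k, FT True X → Smooth X.hom → HasAffineBundle X) (hP : Inherited C P) (m : ℤ)
    (s : ℕ) (h0 : ∀ j : ℕ, s ≤ j → C.Triv (O (-j) m (aff k k)) ∧ C.Triv (O (-j) (m + 1) (aff k k)))
    (hV : (∀ (V : Sch k) (b : ℤ), FT True V → Smooth V.hom → IsProper V.hom → P (O b m V)) →
      ∀ (X : Sch k) (b : ℤ), FT True X → P (O b m X)) {Q : Prop}
    (hQ : Q → Presents ({0, 1} : Set k)) :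
    List.TFAE [
      ∀ (V : Sch k) (b : ℤ), FT True V → Smooth V.hom → IsProper V.hom → P (O b m V),
      ∀ (X : Sch k) (b : ℤ), FT True X → P (O b m X),
      ∀ (a₁ a₂ a₃ : ℕ) (T : Fin a₁ → Fin a₂ → Fin a₃ → k) (b : ℤ), P (O b m (bilS T)),
      ∀ (a₁ a₂ a₃ : ℕ) (T : Fin a₁ → Fin a₂ → Fin a₃ → k) (j : ℕ), s ≤ j →
        P (O (a₁ + a₂ + a₃ - 1 - j) (m + 1) (hypS T))] ∧
    (Q → List.TFAE [
      ∀ (V : Sch k) (b : ℤ), FT True V → Smooth V.hom → IsProper V.hom → P (O b m V),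
      ∀ (a₁ a₂ a₃ : ℕ) (T : Fin a₁ → Fin a₂ → Fin a₃ → k), (∀ i j l, T i j l = 0 ∨ T i j l = 1) →
        ∀ b : ℤ, P (O b m (bilS T)),
      ∀ (a₁ a₂ a₃ : ℕ) (S : Finset (Fin a₁ × Fin a₂ × Fin a₃)) (j : ℕ), s ≤ j →
        P (O (a₁ + a₂ + a₃ - 1 - j) (m + 1) (tripS k S))]) := by
  refine ⟨?_, fun q => ?_⟩
  · tfae_have 1 → 2 := hV
    tfae_have 2 → 3 := fun h a₁ a₂ a₃ T b => h _ _ (ft_aff True)
    tfae_have 3 → 4 := fun h a₁ a₂ a₃ T j hj =>
      (hP.iff (bil_hyp hO T j m (h0 j hj).1 (h0 j hj).2)).mpr (h a₁ a₂ a₃ T _)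
    tfae_have 4 → 1 := fun h V b h2 h3 _ =>
      smooth_of_hyp hO hB hJ hP m s (D := Set.univ) trivial trivial presents_univ
        (fun a₁ a₂ a₃ T _ j hj => h a₁ a₂ a₃ T j hj) V b h2 h3
    tfae_finish
  · tfae_have 1 → 2 := fun h a₁ a₂ a₃ T _ b => hV h _ _ (ft_aff True)
    tfae_have 2 → 3 := by
      intro h a₁ a₂ a₃ S j hj
      obtain ⟨T, hT', hS⟩ := trip_hyp (R := k) S
      rw [← hS]
      exact (hP.iff (bil_hyp hO T j m (h0 j hj).1 (h0 j hj).2)).mpr (h a₁ a₂ a₃ T hT' _)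
    tfae_have 3 → 1 := fun h V b h2 h3 _ =>
      smooth_of_hyp hO hB hJ hP m s (D := {0, 1}) (Or.inl rfl) (Or.inr rfl) (hQ q)
        (fun a₁ a₂ a₃ T hT' j hj => by
          obtain ⟨S, hS⟩ := hyp_zero_one T hT'
          rw [hS]
          exact h a₁ a₂ a₃ S j hj) V b h2 h3
    tfae_finish

end

end Pool.Agent.U554.TW
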