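import Pool.Agent.U554.TW.Ab

/-!
# Theories whose values are homomorphisms `A → Hom(one, B)`, `B` an object of an abelian category
-/

set_option autoImplicit false

open CategoryTheory AlgebraicGeometry Pool.Agent.Y116.UV Pool.Agent.U554.TU

namespace Pool.Agent.U554.TW

universe w v u

/-- A homomorphism `c : A → Hom(one, B)`, where `A` is an abelian group and `B` an object of `𝓡`. -/
structure CReg {𝓡 : Type u} [Category.{v} 𝓡] [Abelian 𝓡] (one : 𝓡) where
  /-- the group of cycles -/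
  A : Type w
  /-- the object -/
  B : 𝓡
  [addA : AddCommGroup A]
  /-- the homomorphism -/
  c : A →+ (one ⟶ B)

attribute [instance] CReg.addA

namespace CReg

variable {𝓡 : Type u} [Category.{v} 𝓡] [Abelian 𝓡] {one : 𝓡}

/-- Homomorphisms, compatible with `c`. -/
structure Hom (X Y : CReg.{w} one) where
  /-- the map of the groups -/
  f : X.A →+ Y.A
  /-- the map of the objects -/
  g : X.B ⟶ Y.B
  comm : ∀ a, X.c a ≫ g = Y.c (f a)

/-- `A = 0` and `B = 0` -/
def Triv (X : CReg.{w} one) : Prop := Subsingleton X.A ∧ Limits.IsZero X.B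

/-- Exactness in the middle. -/
def Exact {X Y Z : CReg.{w} one} (u : Hom X Y) (v : Hom Y Z) : Prop :=
  Function.Exact u.f v.f ∧ ExactAt u.g v.g

/-- `X` and `Y` are isomorphic. -/
def Iso (X Y : CReg.{w} one) : Prop := ∃ u : Hom X Y, Function.Bijective u.f ∧ IsIso u.g

/-- `X` is a direct factor of `Y`. -/
def Factor (X Y : CReg.{w} one) : Prop :=
  ∃ (s : Hom X Y) (r : Hom Y X), (∀ a, r.f (s.f a) = a) ∧ s.g ≫ r.g = 𝟙 X.B

/-- Composition. -/
def Hom.comp {X Y Z : CReg.{w} one} (v : Hom Y Z) (u : Hom X Y) : Hom X Z where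
  f := v.f.comp u.f
  g := u.g ≫ v.g
  comm a := by
    rw [← Category.assoc, u.comm, v.comm]
    rfl

lemma Iso.both {X Y : CReg.{w} one} (h : Iso X Y) : ∃ (u : Hom X Y) (v : Hom Y X),
    (∀ a, v.f (u.f a) = a) ∧ (∀ a, u.f (v.f a) = a) ∧ u.g ≫ v.g = 𝟙 _ ∧ v.g ≫ u.g = 𝟙 _ := by
  obtain ⟨u, h1, h2⟩ := h
  let e1 := AddEquiv.ofBijective u.f h1
  have he1 : ∀ a, u.f (e1.symm a) = a := fun a => e1.apply_symm_apply a
  refine ⟨u, ⟨e1.symm.toAddMonoidHom, inv u.g, fun a => ?_⟩, fun a => e1.symm_apply_apply a, he1,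
    IsIso.hom_inv_id _, IsIso.inv_hom_id _⟩
  change Y.c a ≫ inv u.g = X.c (e1.symm a)
  rw [IsIso.comp_inv_eq, u.comm, he1]

/-- The relations. -/
def rel (one : 𝓡) : Rel (CReg.{w} one) where
  Triv := Triv
  Iso := Iso
  Factor := Factor
  iso_symm := by
    intro X Y h
    obtain ⟨u, v, h1, h2, h3, h4⟩ := h.both
    exact ⟨v, ⟨Function.LeftInverse.injective h2, Function.RightInverse.surjective h1⟩,
      ⟨u.g, h4, h3⟩⟩
  iso_trans := by
    rintro X Y Z ⟨u, h1, h2⟩ ⟨v, h3, h4⟩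
    exact ⟨v.comp u, h3.comp h1, by change IsIso (u.g ≫ v.g); infer_instance⟩
  iso_triv := by
    rintro X Y h ⟨hA, hB⟩
    obtain ⟨u, v, h1, h2, h3, h4⟩ := h.both
    exact ⟨⟨fun a b => by rw [← h2 a, ← h2 b, Subsingleton.elim (v.f a) (v.f b)]⟩,
      hB.of_iso ⟨v.g, u.g, h4, h3⟩⟩
  iso_factor := by
    intro X Y h
    obtain ⟨u, v, h1, h2, h3, h4⟩ := h.both
    exact ⟨u, v, h1, h3⟩
  factor_trans := by
    rintro X Y Z ⟨s, r, h1, h2⟩ ⟨s', r', h1', h2'⟩
    refine ⟨s'.comp s, r.comp r', fun a => ?_, ?_⟩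
    · change r.f (r'.f (s'.f (s.f a))) = a
      rw [h1', h1]
    · change (s.g ≫ s'.g) ≫ (r'.g ≫ r.g) = 𝟙 X.B
      rw [Category.assoc, ← Category.assoc s'.g, h2', Category.id_comp, h2]

lemma iso_of {X Y : CReg.{w} one} (u : Hom X Y) (h1 : Function.Bijective u.f) (h2 : Mono u.g)
    (h3 : Epi u.g) : Iso X Y :=
  ⟨u, h1, isIso_of_mono_of_epi u.g⟩

lemma mid_sub {M N P : Type w} [AddCommGroup M] [AddCommGroup N] [AddCommGroup P] {f : M →+ N}
    {g : N →+ P} (h : Function.Exact f g) (hM : Subsingleton M) (hP : Subsingleton P) :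
    Subsingleton N := by
  refine subsingleton_of_forall_eq 0 fun x => ?_
  obtain ⟨y, hy⟩ := (h x).mp (Subsingleton.elim _ _)
  rw [← hy, Subsingleton.elim y 0, map_zero]

lemma mid_bij {M N P Q : Type w} [AddCommGroup M] [AddCommGroup N] [AddCommGroup P]
    [AddCommGroup Q] {f : M →+ N} {g : N →+ P} {h : P →+ Q} (h1 : Function.Exact f g)
    (h2 : Function.Exact g h) (hM : Subsingleton M) (hQ : Subsingleton Q) :
    Function.Bijective g := by
  constructor
  · rw [injective_iff_map_eq_zero]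
    intro x hx
    obtain ⟨y, hy⟩ := (h1 x).mp hx
    rw [← hy, Subsingleton.elim y 0, map_zero]
  · intro x
    exact (h2 x).mp (Subsingleton.elim _ _)

/-- Each morphism from `one` to `B` is the class of a cycle. -/
def Onto (X : CReg.{w} one) : Prop := ∀ x : one ⟶ X.B, ∃ a : X.A, X.c a = x

lemma onto_inherited : Inherited (rel.{w} one) Onto := by
  rintro X Y ⟨s, r, h1, h2⟩ hY x
  obtain ⟨a, ha⟩ := hY (x ≫ s.g)
  refine ⟨r.f a, ?_⟩
  rw [← r.comm, ha, Category.assoc, h2, Category.comp_id]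

end CReg

/-- Homological theories on the (separated) schemes of finite type over `R` whose values are
homomorphisms `c : A → Hom(one, B)`, `B` an object of an abelian category, indexed by a weight `b` and
a degree `m`. In the applications `A` is the higher Chow group `CH_b(X, m)` with rational
coefficients, `B` the Borel-Moore homology `H_{m + 2 b}(X)(-b)`, and `c` the regulator. The properties are

* `iso`: isomorphic schemes;
* `les`: the long exact sequences of a closed subscheme `Z` of `X` with complement `U`;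
* `neg`: for every degree `m` the groups and objects of sufficiently small weight are zero for all
  schemes;
* `space`: homotopy invariance;
* `bundle`: homotopy invariance for the affine bundles `Spec A[w_1, …, w_c] / (∑ f_l w_l - 1) → U` of
  Jouanolou with fibre `𝔸^(c - 1)`, `U` the complement of `f = 0` in `Spec A`;
* `torus`: pull-back to `X × 𝔾_m` and restriction to `X × 1`. -/
structure IsCycTheory {R : Type} [CommRing R] {𝓡 : Type u} [Category.{v} 𝓡] [Abelian 𝓡] {one : 𝓡}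
    (O : ℤ → ℤ → Sch R → CReg.{w} one) : Prop where
  iso : ∀ {X Y : Sch R}, FT True X → Nonempty (X ≅ Y) → ∀ b m : ℤ, CReg.Iso (O b m X) (O b m Y)
  les : ∀ {Z X U : Sch R} (i : Z ⟶ X) (j : U ⟶ X), FT True X → IsTriple i j → ∀ b : ℤ,
    ∃ (α : ∀ m : ℤ, CReg.Hom (O b m Z) (O b m X)) (β : ∀ m : ℤ, CReg.Hom (O b m X) (O b m U))
      (δ : ∀ m : ℤ, CReg.Hom (O b (m + 1) U) (O b m Z)), (∀ m, CReg.Exact (α m) (β m)) ∧
      (∀ m, CReg.Exact (β (m + 1)) (δ m)) ∧ ∀ m, CReg.Exact (δ m) (α m)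
  neg : ∀ m : ℤ, ∃ β : ℤ, ∀ b < β, ∀ X : Sch R, FT True X → (O b m X).Triv
  space : ∀ (A : Type) [CommRing A] [Algebra R A] [Algebra.FiniteType R A] (r : ℕ) (b m : ℤ),
    CReg.Iso (O b m (aff R A)) (O (b + r) m (aff R (MvPolynomial (Fin r) A)))
  bundle : ∀ (A : Type) [CommRing A] [Algebra R A] [Algebra.FiniteType R A] (c : ℕ)
    (f : Fin c → A) (U : Sch R) (j : U ⟶ aff R A), IsOpenImmersion j.left →
    Set.range j.left = {x : PrimeSpectrum A | ∃ l, f l ∉ x.asIdeal} →
    ∀ b m : ℤ, CReg.Iso (O b m U) (O (b + c - 1) m (aff R (Jou f)))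
  torus : ∀ (A : Type) [CommRing A] [Algebra R A] [Algebra.FiniteType R A] (b m : ℤ),
    CReg.Factor (O b m (aff R A)) (O (b + 1) m (aff R (LaurentPolynomial A)))

/-- Such a theory has the properties `IsTheory`. -/
theorem IsCycTheory.isTheory {R : Type} [CommRing R] {𝓡 : Type u} [Category.{v} 𝓡] [Abelian 𝓡]
    {one : 𝓡} {O : ℤ → ℤ → Sch R → CReg.{w} one} (hO : IsCycTheory O) :
    IsTheory (CReg.rel one) O where
  iso := hO.iso
  total := by
    intro Z X U i j hX ht b m hZ hU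
    obtain ⟨α, β, δ, h1, h2, h3⟩ := hO.les i j hX ht b
    exact ⟨CReg.mid_sub (h1 m).1 hZ.1 hU.1, (h1 m).2.zero hZ.2 hU.2⟩
  opened := by
    intro Z X U i j hX ht b m hZ hZ'
    obtain ⟨α, β, δ, h1, h2, h3⟩ := hO.les i j hX ht b
    exact CReg.iso_of _ (CReg.mid_bij (h1 (m + 1)).1 (h2 m).1 hZ'.1 hZ.1)
      ((h1 (m + 1)).2.mono hZ'.2) ((h2 m).2.epi hZ.2)
  closed := by
    intro Z X U i j hX ht b m h h'
    obtain ⟨α, β, δ, h1, h2, h3⟩ := hO.les i j hX ht b
    exact CReg.iso_of _ (CReg.mid_bij (h2 m).1 (h3 m).1 h'.1 h.1) ((h2 m).2.mono h'.2)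
      ((h3 m).2.epi h.2)
  neg := hO.neg
  space := hO.space
  bundle := hO.bundle
  torus := hO.torus

end Pool.Agent.U554.TW
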