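import Pool.Agent.U554.TW.Abs

/-!
# Theories with values in an abelian category
-/

set_option autoImplicit false

open CategoryTheory AlgebraicGeometry Pool.Agent.Y116.UV Pool.Agent.U554.TU

namespace Pool.Agent.U554.TW

universe v u

section

variable (𝓒 : Type u) [Category.{v} 𝓒] [Abelian 𝓒]

/-- Zero objects, isomorphic objects and direct factors of an abelian category. -/
def abRel : Rel 𝓒 where
  Triv X := Limits.IsZero X
  Iso X Y := Nonempty (X ≅ Y)
  Factor X Y := Nonempty (Retract X Y)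
  iso_symm := fun ⟨e⟩ => ⟨e.symm⟩
  iso_trans := fun ⟨e⟩ ⟨f⟩ => ⟨e.trans f⟩
  iso_triv := fun ⟨e⟩ h => h.of_iso e.symm
  iso_factor := fun ⟨e⟩ => ⟨⟨e.hom, e.inv, e.hom_inv_id⟩⟩
  factor_trans := fun ⟨r⟩ ⟨s⟩ => ⟨r.trans s⟩

end

variable {𝓒 : Type u} [Category.{v} 𝓒] [Abelian 𝓒]

/-- Exactness of `X → Y → Z` in the middle. -/
def ExactAt {X Y Z : 𝓒} (f : X ⟶ Y) (g : Y ⟶ Z) : Prop :=
  ∃ w : f ≫ g = 0, (ShortComplex.mk f g w).Exact

lemma ExactAt.zero {X Y Z : 𝓒} {f : X ⟶ Y} {g : Y ⟶ Z} (h : ExactAt f g) (hX : Limits.IsZero X)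
    (hZ : Limits.IsZero Z) : Limits.IsZero Y := by
  obtain ⟨w, h⟩ := h
  exact h.isZero_of_both_zeros (hX.eq_of_src _ _) (hZ.eq_of_tgt _ _)

lemma ExactAt.mono {X Y Z : 𝓒} {f : X ⟶ Y} {g : Y ⟶ Z} (h : ExactAt f g)
    (hX : Limits.IsZero X) : Mono g := by
  obtain ⟨w, h⟩ := h
  exact h.mono_g (hX.eq_of_src _ _)

lemma ExactAt.epi {X Y Z : 𝓒} {f : X ⟶ Y} {g : Y ⟶ Z} (h : ExactAt f g)
    (hZ : Limits.IsZero Z) : Epi f := by
  obtain ⟨w, h⟩ := h
  exact h.epi_f (hZ.eq_of_tgt _ _)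

/-- Homological theories on the (separated) schemes of finite type over `R` with values in an abelian
category, indexed by a weight `b` and a degree `m`; in the applications `O b m X` is the Borel-Moore
homology `H_{m + 2 b}(X)(-b)` of `X`, twisted by `b`. The properties are

* `iso`: isomorphic schemes;
* `les`: the long exact sequence of a closed subscheme `Z` of `X` with complement `U`;
* `neg`: for every degree `m` the objects of sufficiently small weight are zero for all schemes;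
* `space`: homotopy invariance;
* `bundle`: homotopy invariance for the affine bundles `Spec A[w_1, …, w_c] / (∑ f_l w_l - 1) → U` of
  Jouanolou with fibre `𝔸^(c - 1)`, `U` the complement of `f = 0` in `Spec A`;
* `torus`: pull-back to `X × 𝔾_m` and restriction to `X × 1`. -/
structure IsAbTheory {R : Type} [CommRing R] (O : ℤ → ℤ → Sch R → 𝓒) : Prop where
  iso : ∀ {X Y : Sch R}, FT True X → Nonempty (X ≅ Y) → ∀ b m : ℤ, Nonempty (O b m X ≅ O b m Y)
  les : ∀ {Z X U : Sch R} (i : Z ⟶ X) (j : U ⟶ X), FT True X → IsTriple i j → ∀ b : ℤ,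
    ∃ (α : ∀ m : ℤ, O b m Z ⟶ O b m X) (β : ∀ m : ℤ, O b m X ⟶ O b m U)
      (δ : ∀ m : ℤ, O b (m + 1) U ⟶ O b m Z), (∀ m, ExactAt (α m) (β m)) ∧
      (∀ m, ExactAt (β (m + 1)) (δ m)) ∧ ∀ m, ExactAt (δ m) (α m)
  neg : ∀ m : ℤ, ∃ β : ℤ, ∀ b < β, ∀ X : Sch R, FT True X → Limits.IsZero (O b m X)
  space : ∀ (A : Type) [CommRing A] [Algebra R A] [Algebra.FiniteType R A] (r : ℕ) (b m : ℤ),
    Nonempty (O b m (aff R A) ≅ O (b + r) m (aff R (MvPolynomial (Fin r) A)))
  bundle : ∀ (A : Type) [CommRing A] [Algebra R A] [Algebra.FiniteType R A] (c : ℕ)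
    (f : Fin c → A) (U : Sch R) (j : U ⟶ aff R A), IsOpenImmersion j.left →
    Set.range j.left = {x : PrimeSpectrum A | ∃ l, f l ∉ x.asIdeal} →
    ∀ b m : ℤ, Nonempty (O b m U ≅ O (b + c - 1) m (aff R (Jou f)))
  torus : ∀ (A : Type) [CommRing A] [Algebra R A] [Algebra.FiniteType R A] (b m : ℤ),
    Nonempty (Retract (O b m (aff R A)) (O (b + 1) m (aff R (LaurentPolynomial A))))

/-- A theory with values in an abelian category has the properties `IsTheory`. -/
theorem IsAbTheory.isTheory {R : Type} [CommRing R] {O : ℤ → ℤ → Sch R → 𝓒} (hO : IsAbTheory O) :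
    IsTheory (abRel 𝓒) O where
  iso := hO.iso
  total := by
    intro Z X U i j hX ht b m hZ hU
    obtain ⟨α, β, δ, h1, h2, h3⟩ := hO.les i j hX ht b
    exact (h1 m).zero hZ hU
  opened := by
    intro Z X U i j hX ht b m hZ hZ'
    obtain ⟨α, β, δ, h1, h2, h3⟩ := hO.les i j hX ht b
    have := (h1 (m + 1)).mono hZ'
    have := (h2 m).epi hZ
    have := isIso_of_mono_of_epi (β (m + 1))
    exact ⟨asIso (β (m + 1))⟩
  closed := by
    intro Z X U i j hX ht b m h h'
    obtain ⟨α, β, δ, h1, h2, h3⟩ := hO.les i j hX ht b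
    have := (h2 m).mono h'
    have := (h3 m).epi h
    have := isIso_of_mono_of_epi (δ m)
    exact ⟨asIso (δ m)⟩
  neg := hO.neg
  space := hO.space
  bundle := hO.bundle
  torus := hO.torus

end Pool.Agent.U554.TW
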