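import Pool.Agent.U554.TU.App

/-!
# The universality of the hypersurfaces `T(x, y, z) = 1`, degree by degree, for values of any kind

The values `O b m X` of a theory are elements of a type `V` with the relations being trivial, being
isomorphic, being a factor.
-/

set_option autoImplicit false

open CategoryTheory AlgebraicGeometry MvPolynomial Pool.Agent.Y116.UV Pool.Agent.U554.TU

namespace Pool.Agent.U554.TW

universe u

/-- Three relations with the usual formal properties. -/
structure Rel (V : Type u) where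
  /-- trivial elements -/
  Triv : V → Prop
  /-- isomorphic elements -/
  Iso : V → V → Prop
  /-- factors -/
  Factor : V → V → Prop
  iso_symm : ∀ {x y : V}, Iso x y → Iso y x
  iso_trans : ∀ {x y z : V}, Iso x y → Iso y z → Iso x z
  iso_triv : ∀ {x y : V}, Iso x y → Triv x → Triv y
  iso_factor : ∀ {x y : V}, Iso x y → Factor x y
  factor_trans : ∀ {x y z : V}, Factor x y → Factor y z → Factor x z

/-- Homological theories on the (separated) schemes of finite type over `R`, indexed by a weight `b` and a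
degree `m`, with values in `V`. The properties are

* `iso`: isomorphic schemes;
* `total`, `opened`, `closed`: consequences of the long exact sequence of a closed subscheme `Z` of `X`
  with complement `U`;
* `neg`: for every degree `m` the groups of sufficiently small weight are zero for all schemes;
* `space`: homotopy invariance;
* `bundle`: homotopy invariance for the affine bundles `Spec A[w_1, …, w_c] / (∑ f_l w_l - 1) → U` of
  Jouanolou with fibre `𝔸^(c - 1)`, `U` the complement of `f = 0` in `Spec A`;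
* `torus`: pull-back to `X × 𝔾_m` and restriction to `X × 1`. -/
structure IsTheory {R : Type} [CommRing R] {V : Type u} (C : Rel V) (O : ℤ → ℤ → Sch R → V) :
    Prop where
  iso : ∀ {X Y : Sch R}, FT True X → Nonempty (X ≅ Y) → ∀ b m : ℤ, C.Iso (O b m X) (O b m Y)
  total : ∀ {Z X U : Sch R} (i : Z ⟶ X) (j : U ⟶ X), FT True X → IsTriple i j → ∀ b m : ℤ,
    C.Triv (O b m Z) → C.Triv (O b m U) → C.Triv (O b m X)
  opened : ∀ {Z X U : Sch R} (i : Z ⟶ X) (j : U ⟶ X), FT True X → IsTriple i j → ∀ b m : ℤ,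
    C.Triv (O b m Z) → C.Triv (O b (m + 1) Z) → C.Iso (O b (m + 1) X) (O b (m + 1) U)
  closed : ∀ {Z X U : Sch R} (i : Z ⟶ X) (j : U ⟶ X), FT True X → IsTriple i j → ∀ b m : ℤ,
    C.Triv (O b m X) → C.Triv (O b (m + 1) X) → C.Iso (O b (m + 1) U) (O b m Z)
  neg : ∀ m : ℤ, ∃ β : ℤ, ∀ b < β, ∀ X : Sch R, FT True X → C.Triv (O b m X)
  space : ∀ (A : Type) [CommRing A] [Algebra R A] [Algebra.FiniteType R A] (r : ℕ) (b m : ℤ),
    C.Iso (O b m (aff R A)) (O (b + r) m (aff R (MvPolynomial (Fin r) A)))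
  bundle : ∀ (A : Type) [CommRing A] [Algebra R A] [Algebra.FiniteType R A] (c : ℕ)
    (f : Fin c → A) (U : Sch R) (j : U ⟶ aff R A), IsOpenImmersion j.left →
    Set.range j.left = {x : PrimeSpectrum A | ∃ l, f l ∉ x.asIdeal} →
    ∀ b m : ℤ, C.Iso (O b m U) (O (b + c - 1) m (aff R (Jou f)))
  torus : ∀ (A : Type) [CommRing A] [Algebra R A] [Algebra.FiniteType R A] (b m : ℤ),
    C.Factor (O b m (aff R A)) (O (b + 1) m (aff R (LaurentPolynomial A)))

variable {R : Type} [CommRing R] {V : Type u} {C : Rel V} {O : ℤ → ℤ → Sch R → V}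

namespace IsTheory

variable (hO : IsTheory C O)

include hO

lemma alg {A B : Type} [CommRing A] [CommRing B] [Algebra R A] [Algebra R B]
    [Algebra.FiniteType R A] (e : A ≃ₐ[R] B) (b m : ℤ) :
    C.Iso (O b m (aff R A)) (O b m (aff R B)) :=
  hO.iso (ft_aff True) ⟨(affIso e).symm⟩ b m

/-- The groups in the degrees `m - 1`, `m`, `m + 1` and the weight `b` are trivial for the products
with affine spaces of large dimension. -/
lemma large (b m : ℤ) : ∃ N : ℕ, ∀ r : ℕ, N ≤ r → ∀ m' : ℤ, m - 1 ≤ m' → m' ≤ m + 1 →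
    ∀ (A : Type) [CommRing A] [Algebra R A] [Algebra.FiniteType R A],
      C.Triv (O b m' (aff R (MvPolynomial (Fin r) A))) := by
  obtain ⟨β0, h0⟩ := hO.neg (m - 1)
  obtain ⟨β1, h1⟩ := hO.neg m
  obtain ⟨β2, h2⟩ := hO.neg (m + 1)
  refine ⟨(b - β0).toNat + (b - β1).toNat + (b - β2).toNat + 1, ?_⟩
  intro r hr m' hm hm' A _ _ _
  have h : C.Triv (O (b - r) m' (aff R A)) := by
    have hc : m' = m - 1 ∨ m' = m ∨ m' = m + 1 := by omega
    rcases hc with rfl | rfl | rfl
    · exact h0 _ (by omega) _ (ft_aff True)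
    · exact h1 _ (by omega) _ (ft_aff True)
    · exact h2 _ (by omega) _ (ft_aff True)
  have h3 := hO.space A r (b - r) m'
  rw [sub_add_cancel] at h3
  exact C.iso_triv h3 h

lemma away_triv {A B : Type} [CommRing A] [Algebra R A]
    [Algebra.FiniteType R A] [CommRing B] [Algebra R B] [Algebra.FiniteType R B] (v : A)
    (e : Localization.Away v ≃ₐ[R] B) {b m : ℤ} (hB : C.Triv (O b m (aff R B)))
    (hZ : C.Triv (O b m (aff R (A ⧸ Ideal.span {v})))) : C.Triv (O b m (aff R A)) := by
  have hft : Algebra.FiniteType R (Localization.Away v) :=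
    Algebra.FiniteType.trans (S := A) inferInstance inferInstance
  exact hO.total _ _ (ft_aff True) (triple_away v) b m hZ
    (C.iso_triv (C.iso_symm (hO.alg e b m)) hB)

/-- The groups of the boundary `u_0 v_0 = 0` of the cone are trivial if there are many variables. -/
lemma bd_triv {n D : ℕ} (hD : 1 ≤ D) (G : Finset (MvPolynomial (Fin n) R))
    (b m : ℤ) (h : ∀ r : ℕ, n ≤ r → ∀ (A : Type) [CommRing A] [Algebra R A]
      [Algebra.FiniteType R A], C.Triv (O b m (aff R (MvPolynomial (Fin r) A)))) :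
    C.Triv (O b m (aff R (Cone hD G ⧸ Ideal.span {cw hD G}))) := by
  obtain ⟨v, r, hv, hr, ⟨e⟩⟩ := cone_rest hD G
  have hL : Algebra.FiniteType R (LaurentPolynomial R) := ft_laurent R
  obtain ⟨B, _, _, _, ⟨e'⟩⟩ := cone_v0 hD G
  have h1 : cw hD G ∈ Ideal.span {Ideal.Quotient.mk (eqI hD G) (vv R (mo n D))} := by
    rw [cw, map_mul]
    exact Ideal.mul_mem_left _ _ (Ideal.mem_span_singleton_self _)
  obtain ⟨e1⟩ := quot_quot (R := R) (cw hD G) (Ideal.Quotient.mk (eqI hD G) (vv R (mo n D))) h1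
  refine hO.away_triv v e (h r hr _) ?_
  rw [hv]
  exact C.iso_triv (C.iso_symm (hO.alg (e1.trans e') b m)) (h n le_rfl _)

lemma bundle_ne {A : Type} [CommRing A] [Algebra R A] [Algebra.FiniteType R A]
    {c : ℕ} (f : Fin c → A) (b m : ℤ) :
    C.Iso (O b m (opn (aff R A) (neOpen R f))) (O (b + c - 1) m (aff R (Jou f))) :=
  hO.bundle A c f _ (opnMap (aff R A) (neOpen R f)) inferInstance (range_opnMap _ _) b m

/-- The value of the closed subscheme `f = 0` of `Spec A` is the one of Jouanolou's bundle over its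
complement, if the groups of `Spec A` are trivial in two degrees. -/
lemma closed_jou {A : Type} [CommRing A] [Algebra R A] [Algebra.FiniteType R A]
    {c : ℕ} (f : Fin c → A) (b m : ℤ) (h : C.Triv (O b m (aff R A)))
    (h' : C.Triv (O b (m + 1) (aff R A))) :
    C.Iso (O b m (aff R (A ⧸ Ideal.span (Set.range f))))
      (O (b + c - 1) (m + 1) (aff R (Jou f))) :=
  C.iso_trans (C.iso_symm (hO.closed _ _ (ft_aff True) (triple_ne f) b m h h'))
    (hO.bundle_ne f b (m + 1))

/-- **Universality of the hypersurfaces `T(x, y, z) = 1`, degree by degree.** -/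
theorem universal_factor {S : Set R} (h0 : 0 ∈ S) (h1 : 1 ∈ S)
    (hS : Presents S) (s : ℕ) (A : Type) [CommRing A] [Algebra R A] [Algebra.FiniteType R A]
    (b m : ℤ) :
    ∃ (a₁ a₂ a₃ : ℕ) (T : Fin a₁ → Fin a₂ → Fin a₃ → R), (∀ i j k, T i j k ∈ S) ∧
      b + 2 + s < a₂ + a₃ ∧
      C.Factor (O b m (aff R A)) (O (b + 2 + a₁ - 1) (m + 1) (hypS T)) := by
  classical
  obtain ⟨N, hN⟩ := hO.large (b + 2) m
  obtain ⟨n, hn, φ, G, hs, hK, hc⟩ := presents_large hS h0 h1 A (N + (b + 2).toNat + s + 1)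
  let D : ℕ := 1 + ∑ g ∈ G, ∑ m ∈ g.support, m.degree
  have hD : 1 ≤ D := by omega
  have hd : ∀ g ∈ G, ∀ m ∈ g.support, m.degree ≤ D := by
    intro g hg m hm
    have h1 : m.degree ≤ ∑ m ∈ g.support, m.degree :=
      Finset.single_le_sum (f := fun m : Fin n →₀ ℕ => m.degree) (fun _ _ => Nat.zero_le _) hm
    have h2 : ∑ m ∈ g.support, m.degree ≤ ∑ g ∈ G, ∑ m ∈ g.support, m.degree :=
      Finset.single_le_sum (f := fun g : MvPolynomial (Fin n) R => ∑ m ∈ g.support, m.degree)
        (fun _ _ => Nat.zero_le _) hg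
    omega
  have hG : ∀ g ∈ G, φ g = 0 := by
    intro g hg
    have : g ∈ RingHom.ker φ := by
      rw [hK]
      exact Ideal.subset_span hg
    exact this
  have hM : n ≤ Fintype.card (Mon n D) := by
    simpa using Fintype.card_le_of_injective _ (md_inj (n := n) hD)
  -- the tori
  have hL := ft_laurent (R := R) A
  have hLL := ft_laurent (R := R) (LaurentPolynomial A)
  have hLC : Algebra.FiniteType R (LCone hD G) :=
    Algebra.FiniteType.trans (S := Cone hD G) inferInstance inferInstance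
  have k1 := C.factor_trans (hO.torus A b m) (hO.torus (LaurentPolynomial A) (b + 1) m)
  have hb2 : b + 1 + 1 = b + 2 := by ring
  rw [hb2] at k1
  have k2 : C.Factor (O b m (aff R A)) (O (b + 2) m (aff R (LCone hD G))) :=
    C.factor_trans k1
      (C.iso_factor (C.iso_symm (hO.alg (coneEquiv hD G φ hG hd hs hK) (b + 2) m)))
  -- the boundary
  have hbd : ∀ m' : ℤ, m - 1 ≤ m' → m' ≤ m + 1 →
      C.Triv (O (b + 2) m' (aff R (Cone hD G ⧸ Ideal.span {cw hD G}))) := by
    intro m' hm1 hm2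
    exact hO.bd_triv hD G (b + 2) m' fun r hr B _ _ _ => hN r (by omega) m' hm1 hm2 B
  have k3 : C.Iso (O (b + 2) m (aff R (Cone hD G))) (O (b + 2) m (aff R (LCone hD G))) := by
    have h := hO.opened _ _ (ft_aff True) (triple_away (cw hD G)) (b + 2) (m - 1)
      (hbd _ (by omega) (by omega)) (hbd _ (by omega) (by omega))
    rwa [sub_add_cancel] at h
  -- the complement in the affine space
  let κ : Type := Mon n D ⊕ (Mon n D × Fin n) ⊕ G
  let e : Fin (Fintype.card κ) ≃ κ := (Fintype.equivFin κ).symm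
  let eM : Fin (Fintype.card (Mon n D)) ≃ Mon n D := (Fintype.equivFin (Mon n D)).symm
  choose T0 hT0S hT0 using fun k : κ => eqs_mem hD G h0 h1 hc k
  let f : Fin (Fintype.card κ) → UVRing R n D := fun i => bil (Mon n D) (Mon n D) (T0 (e i))
  have hf : Ideal.span (Set.range f) = eqI hD G := by
    have : f = eqs hD G ∘ e := by
      funext i
      exact hT0 (e i)
    rw [this, e.surjective.range_comp, eqI]
  have hcard : n ≤ Fintype.card (Mon n D ⊕ Mon n D) := by
    rw [Fintype.card_sum]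
    omega
  have hsp : ∀ m' : ℤ, m - 1 ≤ m' → m' ≤ m + 1 → C.Triv (O (b + 2) m' (aff R (UVRing R n D))) := by
    intro m' hm1 hm2
    exact C.iso_triv (C.iso_symm
      (hO.alg (renameEquiv R (Fintype.equivFin (Mon n D ⊕ Mon n D))) _ _))
      (hN _ (by omega) m' hm1 hm2 R)
  have k4 := hO.closed_jou f (b + 2) m (hsp _ (by omega) (by omega)) (hsp _ (by omega) (by omega))
  have k5 : C.Iso (O (b + 2) m (aff R (Cone hD G)))
      (O (b + 2) m (aff R (UVRing R n D ⧸ Ideal.span (Set.range f)))) :=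
    hO.alg (Ideal.quotientEquivAlgOfEq R hf.symm) _ _
  let T : Fin (Fintype.card κ) → Fin (Fintype.card (Mon n D)) → Fin (Fintype.card (Mon n D)) → R :=
    fun i j k => T0 (e i) (eM j) (eM k)
  have e6 : Hyp T ≃ₐ[R] Jou f :=
    (hypRename (Equiv.refl _) eM eM fun i => T0 (e i)).trans (hypEquiv fun i => T0 (e i))
  have hHT : Algebra.FiniteType R (Hyp T) := inferInstance
  have k6 := hO.alg e6 (b + 2 + (Fintype.card κ : ℤ) - 1) (m + 1)
  refine ⟨Fintype.card κ, Fintype.card (Mon n D), Fintype.card (Mon n D), T,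
    fun _ _ _ => hT0S _ _ _, by omega, ?_⟩
  exact C.factor_trans k2 (C.factor_trans (C.iso_factor (C.iso_symm k3))
    (C.factor_trans (C.iso_factor k5) (C.factor_trans (C.iso_factor k4)
      (C.iso_factor (C.iso_symm k6)))))

/-- The value of the hypersurface `T(x, y, z) = 1` and of the complement of the bilinear system
`T(·, y, z) = 0`. -/
lemma hyp_bundle {a₁ a₂ a₃ : ℕ} (T : Fin a₁ → Fin a₂ → Fin a₃ → R) (b m : ℤ) :
    C.Iso (O b m (opn (aff R (MvPolynomial (Fin a₂ ⊕ Fin a₃) R))
      (neOpen R fun i => bil (Fin a₂) (Fin a₃) (T i)))) (O (b + a₁ - 1) m (hypS T)) :=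
  C.iso_trans (hO.bundle_ne (fun i => bil (Fin a₂) (Fin a₃) (T i)) b m)
    (C.iso_symm (hO.alg (hypEquiv T) _ _))

end IsTheory

/-- Homotopy invariance for affine bundles. -/
def BundleInvariant (C : Rel V) (O : ℤ → ℤ → Sch R → V) : Prop :=
  ∀ {E X : Sch R} (r : ℕ) (π : E ⟶ X), FT True X → IsAffineBundle r π → ∀ b m : ℤ,
    C.Iso (O b m X) (O (b + r) m E)

/-- A property which passes to factors. -/
def Inherited (C : Rel V) (P : V → Prop) : Prop := ∀ x y : V, C.Factor x y → P y → P x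

lemma Inherited.iff {P : V → Prop} (hP : Inherited C P) {x y : V} (h : C.Iso x y) : P x ↔ P y :=
  ⟨hP _ _ (C.iso_factor (C.iso_symm h)), hP _ _ (C.iso_factor h)⟩

/-- From the hypersurfaces `T(x, y, z) = 1` to the affine schemes; `s` is any lower bound for the
codimensions. -/
theorem affine_of_hyp (hO : IsTheory C O) {P : V → Prop} (hP : Inherited C P) {S : Set R}
    (h0 : 0 ∈ S) (h1 : 1 ∈ S) (hS : Presents S) (s : ℕ) (m : ℤ)
    (h : ∀ (a₁ a₂ a₃ : ℕ) (T : Fin a₁ → Fin a₂ → Fin a₃ → R), (∀ i j k, T i j k ∈ S) →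
      ∀ j : ℕ, s ≤ j → P (O (a₁ + a₂ + a₃ - 1 - j) (m + 1) (hypS T)))
    (A : Type) [CommRing A] [Algebra R A] [Algebra.FiniteType R A] (b : ℤ) :
    P (O b m (aff R A)) := by
  obtain ⟨a₁, a₂, a₃, T, hT, hb, hF⟩ := hO.universal_factor h0 h1 hS s A b m
  have h2 := h a₁ a₂ a₃ T hT ((a₂ + a₃ : ℤ) - (b + 2)).toNat (by omega)
  have h3 : (a₁ + a₂ + a₃ - 1 - (((a₂ + a₃ : ℤ) - (b + 2)).toNat : ℤ) : ℤ) = b + 2 + a₁ - 1 := by
    omega
  rw [h3] at h2
  exact hP _ _ hF h2

/-- From the affine schemes to the schemes with an affine bundle. -/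
theorem bundle_of_affine (hB : BundleInvariant C O) {P : V → Prop} (hP : Inherited C P) (m : ℤ)
    (h : ∀ (A : Type) [CommRing A] [Algebra R A] [Algebra.FiniteType R A] (b : ℤ),
      P (O b m (aff R A))) (X : Sch R) (hX : FT True X) (hX' : HasAffineBundle X) (b : ℤ) :
    P (O b m X) := by
  obtain ⟨A, _, _, _, r, π, hπ⟩ := hX'
  exact hP _ _ (C.iso_factor (hB r π hX hπ b m)) (h A _)

end Pool.Agent.U554.TW
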