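import Pool.Agent.U554.TW.Abs

/-!
# Theories whose values are homomorphisms `A → B` into topological groups
-/

set_option autoImplicit false

open CategoryTheory AlgebraicGeometry Pool.Agent.Y116.UV Pool.Agent.U554.TU

namespace Pool.Agent.U554.TW

universe w

/-- A homomorphism `c : A → B` of an abelian group to a topological abelian group. -/
structure TReg where
  /-- the source -/
  A : Type w
  /-- the target -/
  B : Type w
  [addA : AddCommGroup A]
  [addB : AddCommGroup B]
  [topB : TopologicalSpace B]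
  [grpB : IsTopologicalAddGroup B]
  /-- the homomorphism -/
  c : A →+ B

attribute [instance] TReg.addA TReg.addB TReg.topB TReg.grpB

namespace TReg

/-- A commutative square of homomorphisms, with a continuous homomorphism of the targets. -/
structure Hom (X Y : TReg.{w}) where
  /-- the map of the sources -/
  f : X.A →+ Y.A
  /-- the map of the targets -/
  g : X.B →+ Y.B
  comm : ∀ a, g (X.c a) = Y.c (f a)
  cont : Continuous g

/-- `A = 0` and `B = 0` -/
def Triv (X : TReg.{w}) : Prop := Subsingleton X.A ∧ Subsingleton X.B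

/-- Exactness in the middle. -/
def Exact {X Y Z : TReg.{w}} (u : Hom X Y) (v : Hom Y Z) : Prop :=
  Function.Exact u.f v.f ∧ Function.Exact u.g v.g

/-- `X` and `Y` are isomorphic: there are inverse homomorphisms. -/
def Iso (X Y : TReg.{w}) : Prop :=
  ∃ (u : Hom X Y) (v : Hom Y X), (∀ a, v.f (u.f a) = a) ∧ (∀ b, v.g (u.g b) = b) ∧
    (∀ a, u.f (v.f a) = a) ∧ ∀ b, u.g (v.g b) = b

/-- `X` is a direct factor of `Y`. -/
def Factor (X Y : TReg.{w}) : Prop :=
  ∃ (s : Hom X Y) (r : Hom Y X), (∀ a, r.f (s.f a) = a) ∧ ∀ b, r.g (s.g b) = b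

/-- Composition. -/
def Hom.comp {X Y Z : TReg.{w}} (v : Hom Y Z) (u : Hom X Y) : Hom X Z where
  f := v.f.comp u.f
  g := v.g.comp u.g
  comm a := by
    change v.g (u.g (X.c a)) = Z.c (v.f (u.f a))
    rw [u.comm, v.comm]
  cont := v.cont.comp u.cont

/-- The relations. -/
def rel : Rel TReg.{w} where
  Triv := Triv
  Iso := Iso
  Factor := Factor
  iso_symm := fun ⟨u, v, h1, h2, h3, h4⟩ => ⟨v, u, h3, h4, h1, h2⟩
  iso_trans := by
    rintro X Y Z ⟨u, v, h1, h2, h3, h4⟩ ⟨u', v', h1', h2', h3', h4'⟩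
    refine ⟨u'.comp u, v.comp v', fun a => ?_, fun b => ?_, fun a => ?_, fun b => ?_⟩
    · change v.f (v'.f (u'.f (u.f a))) = a
      rw [h1', h1]
    · change v.g (v'.g (u'.g (u.g b))) = b
      rw [h2', h2]
    · change u'.f (u.f (v.f (v'.f a))) = a
      rw [h3, h3']
    · change u'.g (u.g (v.g (v'.g b))) = b
      rw [h4, h4']
  iso_triv := by
    rintro X Y ⟨u, v, h1, h2, h3, h4⟩ ⟨hA, hB⟩
    exact ⟨⟨fun a b => by rw [← h3 a, ← h3 b, Subsingleton.elim (v.f a) (v.f b)]⟩,
      ⟨fun a b => by rw [← h4 a, ← h4 b, Subsingleton.elim (v.g a) (v.g b)]⟩⟩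
  iso_factor := fun ⟨u, v, h1, h2, _, _⟩ => ⟨u, v, h1, h2⟩
  factor_trans := by
    rintro X Y Z ⟨s, r, h1, h2⟩ ⟨s', r', h1', h2'⟩
    refine ⟨s'.comp s, r.comp r', fun a => ?_, fun b => ?_⟩
    · change r.f (r'.f (s'.f (s.f a))) = a
      rw [h1', h1]
    · change r.g (r'.g (s'.g (s.g b))) = b
      rw [h2', h2]

/-- A homomorphism which is bijective on the sources and bijective and open on the targets. -/
lemma iso_of_bij {X Y : TReg.{w}} (u : Hom X Y) (h1 : Function.Bijective u.f)
    (h2 : Function.Bijective u.g) (h3 : IsOpenMap u.g) : Iso X Y := by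
  let e1 := AddEquiv.ofBijective u.f h1
  let e2 := AddEquiv.ofBijective u.g h2
  have he1 : ∀ a, u.f (e1.symm a) = a := fun a => e1.apply_symm_apply a
  have he2 : ∀ a, u.g (e2.symm a) = a := fun a => e2.apply_symm_apply a
  refine ⟨u, ⟨e1.symm.toAddMonoidHom, e2.symm.toAddMonoidHom, ?_, ?_⟩,
    fun a => e1.symm_apply_apply a, fun b => e2.symm_apply_apply b, he1, he2⟩
  · intro a
    apply h2.1
    change u.g (e2.symm (Y.c a)) = u.g (X.c (e1.symm a))
    rw [he2, u.comm, he1]
  · change Continuous e2.symm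
    rw [continuous_def]
    intro s hs
    have h4 : e2.symm ⁻¹' s = u.g '' s := by
      ext y
      constructor
      · intro hy
        exact ⟨e2.symm y, hy, he2 y⟩
      · rintro ⟨x, hx, rfl⟩
        change e2.symm (e2 x) ∈ s
        rwa [e2.symm_apply_apply]
    rw [h4]
    exact h3 s hs

lemma mid_sub {M N P : Type w} [AddCommGroup M] [AddCommGroup N] [AddCommGroup P] {f : M →+ N}
    {g : N →+ P} (h : Function.Exact f g) (hM : Subsingleton M) (hP : Subsingleton P) :
    Subsingleton N := by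
  refine subsingleton_of_forall_eq 0 fun x => ?_
  obtain ⟨y, hy⟩ := (h x).mp (Subsingleton.elim _ _)
  rw [← hy, Subsingleton.elim y 0, map_zero]

lemma mid_bij {M N P Q : Type w} [AddCommGroup M] [AddCommGroup N] [AddCommGroup P]
    [AddCommGroup Q] {f : M →+ N} {g : N →+ P} {h : P →+ Q} (h1 : Function.Exact f g)
    (h2 : Function.Exact g h) (hM : Subsingleton M) (hQ : Subsingleton Q) :
    Function.Bijective g := by
  constructor
  · rw [injective_iff_map_eq_zero]
    intro x hx
    obtain ⟨y, hy⟩ := (h1 x).mp hx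
    rw [← hy, Subsingleton.elim y 0, map_zero]
  · intro x
    exact (h2 x).mp (Subsingleton.elim _ _)

end TReg

/-- Homological theories on the (separated) schemes of finite type over `R` whose values are
homomorphisms `c : A → B` to topological groups, indexed by a weight `b` and a degree `m`. In the
application `O b m X` is the regulator from `CH_b(X, m) ⊗ ℚ` to the absolute Hodge homology
`H_{m + 2 b}(X, ℚ(b))`. The properties are

* `iso`: isomorphic schemes;
* `les`: the long exact sequence of a closed subscheme `Z` of `X` with complement `U`, where the maps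
  of the targets are continuous, and open if they are bijective;
* `neg`: for every degree `m` the groups of sufficiently small weight are zero for all schemes;
* `space`: homotopy invariance;
* `bundle`: homotopy invariance for the affine bundles `Spec A[w_1, …, w_c] / (∑ f_l w_l - 1) → U` of
  Jouanolou with fibre `𝔸^(c - 1)`, `U` the complement of `f = 0` in `Spec A`;
* `torus`: pull-back to `X × 𝔾_m` and restriction to `X × 1`. -/
structure IsTopTheory {R : Type} [CommRing R] (O : ℤ → ℤ → Sch R → TReg.{w}) : Prop where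
  iso : ∀ {X Y : Sch R}, FT True X → Nonempty (X ≅ Y) → ∀ b m : ℤ, TReg.Iso (O b m X) (O b m Y)
  les : ∀ {Z X U : Sch R} (i : Z ⟶ X) (j : U ⟶ X), FT True X → IsTriple i j → ∀ b : ℤ,
    ∃ (α : ∀ m : ℤ, TReg.Hom (O b m Z) (O b m X)) (β : ∀ m : ℤ, TReg.Hom (O b m X) (O b m U))
      (δ : ∀ m : ℤ, TReg.Hom (O b (m + 1) U) (O b m Z)), (∀ m, TReg.Exact (α m) (β m)) ∧
      (∀ m, TReg.Exact (β (m + 1)) (δ m)) ∧ (∀ m, TReg.Exact (δ m) (α m)) ∧
      (∀ m, Function.Bijective (β m).g → IsOpenMap (β m).g) ∧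
      ∀ m, Function.Bijective (δ m).g → IsOpenMap (δ m).g
  neg : ∀ m : ℤ, ∃ β : ℤ, ∀ b < β, ∀ X : Sch R, FT True X → (O b m X).Triv
  space : ∀ (A : Type) [CommRing A] [Algebra R A] [Algebra.FiniteType R A] (r : ℕ) (b m : ℤ),
    TReg.Iso (O b m (aff R A)) (O (b + r) m (aff R (MvPolynomial (Fin r) A)))
  bundle : ∀ (A : Type) [CommRing A] [Algebra R A] [Algebra.FiniteType R A] (c : ℕ)
    (f : Fin c → A) (U : Sch R) (j : U ⟶ aff R A), IsOpenImmersion j.left →
    Set.range j.left = {x : PrimeSpectrum A | ∃ l, f l ∉ x.asIdeal} →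
    ∀ b m : ℤ, TReg.Iso (O b m U) (O (b + c - 1) m (aff R (Jou f)))
  torus : ∀ (A : Type) [CommRing A] [Algebra R A] [Algebra.FiniteType R A] (b m : ℤ),
    TReg.Factor (O b m (aff R A)) (O (b + 1) m (aff R (LaurentPolynomial A)))

/-- Such a theory has the properties `IsTheory`. -/
theorem IsTopTheory.isTheory {R : Type} [CommRing R] {O : ℤ → ℤ → Sch R → TReg.{w}}
    (hO : IsTopTheory O) : IsTheory TReg.rel O where
  iso := hO.iso
  total := by
    intro Z X U i j hX ht b m hZ hU
    obtain ⟨α, β, δ, h1, h2, h3, -, -⟩ := hO.les i j hX ht b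
    exact ⟨TReg.mid_sub (h1 m).1 hZ.1 hU.1, TReg.mid_sub (h1 m).2 hZ.2 hU.2⟩
  opened := by
    intro Z X U i j hX ht b m hZ hZ'
    obtain ⟨α, β, δ, h1, h2, h3, h4, -⟩ := hO.les i j hX ht b
    have hg := TReg.mid_bij (h1 (m + 1)).2 (h2 m).2 hZ'.2 hZ.2
    exact TReg.iso_of_bij _ (TReg.mid_bij (h1 (m + 1)).1 (h2 m).1 hZ'.1 hZ.1) hg (h4 _ hg)
  closed := by
    intro Z X U i j hX ht b m h h'
    obtain ⟨α, β, δ, h1, h2, h3, -, h5⟩ := hO.les i j hX ht b
    have hg := TReg.mid_bij (h2 m).2 (h3 m).2 h'.2 h.2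
    exact TReg.iso_of_bij _ (TReg.mid_bij (h2 m).1 (h3 m).1 h'.1 h.1) hg (h5 _ hg)
  neg := hO.neg
  space := hO.space
  bundle := hO.bundle
  torus := hO.torus

end Pool.Agent.U554.TW
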